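import Mathlib

/-!
# Partial sums of a binomial-sum sequence modulo `p ^ 2`, `p ≡ 2 (mod 3)`
-/

namespace Pool.Agent.Results.MP_ec79a8_nt.Main

open Finset

/-- `a(n) = ∑_{j=0}^n C(n,j) C(n-j,j) C(n+j,j)`. -/
def a (n : ℕ) : ℕ := ∑ j ∈ range (n + 1), n.choose j * (n - j).choose j * (n + j).choose j

/-! ### Elementary combinatorial part -/

lemma term_eq (k j : ℕ) : k.choose j * (k - j).choose j * (k + j).choose j
    = (3 * j).choose j * (2 * j).choose j * (k + j).choose (3 * j) := by
  have h1 : (k + j).choose (3 * j) * (3 * j).choose j = (k + j).choose j * k.choose (2 * j) := by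
    rw [Nat.choose_mul (by omega)]
    congr 2 <;> omega
  have h2 : k.choose (2 * j) * (2 * j).choose j = k.choose j * (k - j).choose j := by
    rw [Nat.choose_mul (by omega)]
    congr 2; omega
  calc k.choose j * (k - j).choose j * (k + j).choose j
      = (k + j).choose j * (k.choose (2 * j) * (2 * j).choose j) := by rw [h2]; ring
    _ = ((k + j).choose j * k.choose (2 * j)) * (2 * j).choose j := by ring
    _ = ((k + j).choose (3 * j) * (3 * j).choose j) * (2 * j).choose j := by rw [h1]
    _ = _ := by ring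

lemma hockey (p j : ℕ) : ∑ k ∈ range p, (k + j).choose (3 * j) = (p + j).choose (3 * j + 1) := by
  induction p with
  | zero => simp [Nat.choose_eq_zero_of_lt (show j < 3 * j + 1 by omega)]
  | succ p ih =>
    rw [sum_range_succ, ih, show p + 1 + j = (p + j) + 1 by ring, Nat.choose_succ_succ]
    ring

lemma sum_a (p : ℕ) : ∑ k ∈ range p, a k
    = ∑ j ∈ range p, (3 * j).choose j * (2 * j).choose j * (p + j).choose (3 * j + 1) := by
  have h : ∀ k ∈ range p, a k
      = ∑ j ∈ range p, (3 * j).choose j * (2 * j).choose j * (k + j).choose (3 * j) := by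
    intro k hk
    rw [mem_range] at hk
    unfold a
    rw [sum_congr rfl (fun j _ => term_eq k j)]
    apply sum_subset
    · intro j hj; rw [mem_range] at *; omega
    · intro j _ hj
      rw [mem_range, not_lt] at hj
      rw [Nat.choose_eq_zero_of_lt (show k + j < 3 * j by omega), mul_zero]
  rw [sum_congr rfl h, sum_comm]
  apply sum_congr rfl
  intro j _
  rw [← mul_sum, hockey]

/-- `C(p+j,3j+1) (3j+1) C(3j,j) = p C(p+j,j) C(p-1,2j)` -/
lemma key_nat (p j : ℕ) (hp : 0 < p) :
    (p + j).choose (3 * j + 1) * ((3 * j + 1) * (3 * j).choose j)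
      = p * ((p + j).choose j * (p - 1).choose (2 * j)) := by
  have h1 : (p + j).choose (3 * j + 1) * (3 * j + 1).choose j
      = (p + j).choose j * p.choose (2 * j + 1) := by
    rw [Nat.choose_mul (by omega)]
    congr 2 <;> omega
  have h2 : (2 * j + 1) * (3 * j + 1).choose j = (3 * j + 1) * (3 * j).choose j := by
    have e1 : (3 * j + 1).choose j = (3 * j + 1).choose (2 * j + 1) := by
      rw [← Nat.choose_symm (show j ≤ 3 * j + 1 by omega)]; congr 1; omega
    have e2 : (3 * j).choose j = (3 * j).choose (2 * j) := by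
      rw [← Nat.choose_symm (show j ≤ 3 * j by omega)]; congr 1; omega
    rw [e1, e2, mul_comm (2 * j + 1), ← Nat.add_one_mul_choose_eq]
  have h3 : p * (p - 1).choose (2 * j) = p.choose (2 * j + 1) * (2 * j + 1) := by
    obtain ⟨q, rfl⟩ : ∃ q, p = q + 1 := ⟨p - 1, by omega⟩
    rw [Nat.add_sub_cancel, Nat.add_one_mul_choose_eq]
  calc (p + j).choose (3 * j + 1) * ((3 * j + 1) * (3 * j).choose j)
      = ((p + j).choose (3 * j + 1) * (3 * j + 1).choose j) * (2 * j + 1) := by rw [← h2]; ring
    _ = (p + j).choose j * (p.choose (2 * j + 1) * (2 * j + 1)) := by rw [h1]; ring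
    _ = _ := by rw [← h3]; ring


/-! ### Polynomial identities in characteristic `p` -/

section Poly

open Polynomial

variable {K : Type*} [Field K] (p : ℕ) [hp : Fact p.Prime] [CharP K p]

lemma zero_of (f : K[X]) (hd : derivative f = 0) (hdeg : f.natDegree < 2 * p)
    (h0 : f.eval 0 = 0) (h1 : f.eval 1 = 0) : f = 0 := by
  have hp0 : p ≠ 0 := hp.out.ne_zero
  have he := expand_contract p hd hp0
  set g := contract p f with hg
  have hgdeg : g.natDegree < 2 := by
    rw [← he, natDegree_expand] at hdeg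
    exact Nat.lt_of_mul_lt_mul_right hdeg
  have hg1 : g = C (g.coeff 1) * X + C (g.coeff 0) := eq_X_add_C_of_natDegree_le_one (by omega)
  have e0 : g.eval 0 = 0 := by
    have : f.eval 0 = g.eval ((0 : K) ^ p) := by rw [← he, expand_eval]
    rw [zero_pow hp0] at this
    rw [← this, h0]
  have e1 : g.eval 1 = 0 := by
    have : f.eval 1 = g.eval ((1 : K) ^ p) := by rw [← he, expand_eval]
    rw [one_pow] at this
    rw [← this, h1]
  rw [hg1] at e0 e1
  simp at e0 e1
  rw [e0] at e1 hg1
  have e2 : g.coeff 1 = 0 := by simpa using e1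
  rw [e2] at hg1
  rw [← he, hg1]; simp

/-- `∫_0^X t^(m-1) (1 + c t)^n dt` -/
noncomputable def G (n m : ℕ) (c : K) : K[X] :=
  ∑ j ∈ range (n + 1), C ((n.choose j : K) * c ^ j * ((m + j : ℕ) : K)⁻¹) * X ^ (m + j)

lemma natDegree_G (n m : ℕ) (c : K) : (G n m c).natDegree ≤ m + n := by
  unfold G
  apply natDegree_sum_le_of_forall_le
  intro j hj
  rw [mem_range] at hj
  refine (natDegree_C_mul_X_pow_le _ _).trans (by omega)

lemma eval_zero_G (n m : ℕ) (c : K) (hm : 0 < m) : (G n m c).eval 0 = 0 := by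
  unfold G
  rw [eval_finsetSum]
  apply sum_eq_zero
  intro j _
  rw [eval_mul, eval_pow, eval_X, zero_pow (by omega), mul_zero]

lemma deriv_G (n m : ℕ) (c : K) (hm : 0 < m) (h : ∀ j ≤ n, ((m + j : ℕ) : K) ≠ 0) :
    derivative (G n m c) = X ^ (m - 1) * (1 + C c * X) ^ n := by
  unfold G
  rw [derivative_sum, add_comm (1 : K[X]), add_pow, mul_sum]
  apply sum_congr rfl
  intro j hj
  rw [mem_range] at hj
  have hj' := h j (by omega)
  rw [derivative_C_mul_X_pow]
  have e : (n.choose j : K) * c ^ j * ((m + j : ℕ) : K)⁻¹ * ((m + j : ℕ) : K)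
      = (n.choose j : K) * c ^ j := by
    field_simp
  rw [e, show m + j - 1 = (m - 1) + j by omega]
  simp only [C_mul, C_pow, one_pow, mul_one, map_natCast, pow_add, mul_pow]
  ring

omit hp in
lemma cast_ne (i : ℕ) (h0 : 0 < i) (h1 : i < p) : ((i : ℕ) : K) ≠ 0 := by
  rw [Ne, CharP.cast_eq_zero_iff K p]
  exact Nat.not_dvd_of_pos_of_lt h0 h1

/-- First identity: `Φ(u(1-u)) = (1 - 2u^p) A(u) + A(1) u^p`. -/
lemma claim_one (N m : ℕ) (hN : 2 * N + 1 = p) (hm : 3 * m = p + 1) (hm0 : 0 < m) :
    (G (K := K) N m (-4)).comp (X * (1 - X))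
      = (1 - 2 * X ^ p) * G (m - 1) m (-1) + C ((G (K := K) (m - 1) m (-1)).eval 1) * X ^ p := by
  have hpK : (p : K[X]) = 0 := by
    rw [← map_natCast (C : K →+* K[X]), CharP.cast_eq_zero K p, C_0]
  have hfr : (1 - 2 * X : K[X]) ^ p = 1 - 2 * X ^ p := by
    have h2 : (2 : K[X]) ^ p = 2 := by
      have := map_ofNat (frobenius K[X] p) 2
      rwa [frobenius_def] at this
    rw [sub_pow_char, one_pow, mul_pow, h2]
  rw [← sub_eq_zero]
  apply zero_of p
  · have d1 := deriv_G (K := K) N m (-4) hm0 (fun j hj => cast_ne p _ (by omega) (by omega))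
    have d2 := deriv_G (K := K) (m - 1) m (-1) hm0 (fun j hj => cast_ne p _ (by omega) (by omega))
    rw [derivative_sub, derivative_comp, d1, derivative_add]
    simp only [derivative_mul, derivative_sub, derivative_one, derivative_X, derivative_X_pow,
      derivative_C, derivative_ofNat, map_natCast, hpK, d2]
    simp only [mul_comp, add_comp, pow_comp, X_comp, one_comp, C_comp]
    have h4 : (C (-4) : K[X]) = -4 := by rw [map_neg, map_ofNat C 4]
    have h5 : (C (-1) : K[X]) = -1 := by rw [map_neg, map_one]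
    rw [h4, h5]
    have e : (1 + -4 * (X * (1 - X)) : K[X]) = (1 - 2 * X) ^ 2 := by ring
    rw [e, ← pow_mul]
    have e2 : (1 - 2 * X : K[X]) ^ (2 * N) * (1 - 2 * X) = 1 - 2 * X ^ p := by
      rw [← pow_succ, hN, hfr]
    have e3 : (1 * (1 - X) + X * (0 - 1) : K[X]) = 1 - 2 * X := by ring
    rw [e3]
    have e4 : (X * (1 - X) : K[X]) ^ (m - 1) = X ^ (m - 1) * (1 + -1 * X) ^ (m - 1) := by
      rw [mul_pow]; congr 2; ring
    rw [e4]
    calc _ = (1 - 2 * X : K[X]) ^ (2 * N) * (1 - 2 * X)
            * (X ^ (m - 1) * (1 + -1 * X) ^ (m - 1))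
            - (1 - 2 * X ^ p) * (X ^ (m - 1) * (1 + -1 * X) ^ (m - 1)) := by ring
      _ = 0 := by rw [e2, sub_self]
  · refine lt_of_le_of_lt (natDegree_sub_le _ _) (max_lt ?_ ?_)
    · rw [natDegree_comp]
      have h1 := natDegree_G (K := K) N m (-4)
      have h2 : (X * (1 - X) : K[X]).natDegree ≤ 2 := by
        refine (natDegree_mul_le).trans ?_
        have h3 : (X : K[X]).natDegree ≤ 1 := natDegree_X_le
        have h4 : (1 - X : K[X]).natDegree ≤ 1 := by
          refine (natDegree_sub_le _ _).trans (max_le ?_ h3)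
          simp
        omega
      calc _ ≤ (m + N) * 2 := Nat.mul_le_mul h1 h2
        _ < 2 * p := by omega
    · refine lt_of_le_of_lt (natDegree_add_le _ _) (max_lt ?_ ?_)
      · refine lt_of_le_of_lt natDegree_mul_le ?_
        have h1 := natDegree_G (K := K) (m - 1) m (-1)
        have h2 : (1 - 2 * X ^ p : K[X]).natDegree ≤ p := by
          refine (natDegree_sub_le _ _).trans (max_le ?_ ?_)
          · simp
          · have : (2 * X ^ p : K[X]) = C 2 * X ^ p := by rw [map_ofNat C 2]
            rw [this]; exact natDegree_C_mul_X_pow_le _ _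
        omega
      · refine lt_of_le_of_lt (natDegree_C_mul_X_pow_le _ _) ?_
        have := hp.out.pos
        omega
  · simp only [eval_sub, eval_comp, eval_mul, eval_X, eval_one, eval_add, eval_pow, eval_C,
      eval_zero_G N m _ hm0, eval_zero_G (m - 1) m _ hm0, zero_mul, mul_zero, zero_pow hp.out.ne_zero,
      add_zero, sub_zero]
  · simp only [eval_sub, eval_comp, eval_mul, eval_X, eval_one, eval_add, eval_pow, eval_C,
      eval_ofNat, sub_self, mul_zero, eval_zero_G N m _ hm0, one_pow, mul_one]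
    ring

/-- `(1-X)^p A(1/(1-X))` as a polynomial -/
noncomputable def At (m : ℕ) : K[X] :=
  ∑ j ∈ range (m - 1 + 1), C (((m - 1).choose j : K) * (-1) ^ j * ((m + j : ℕ) : K)⁻¹)
    * (1 - X) ^ (2 * m - 1 - j)

/-- Second identity: `(1-v)^p A(1/(1-v)) + A(v) = A(1)`. -/
lemma claim_two (m : ℕ) (hm : 3 * m = p + 1) (hm0 : 0 < m) (hmodd : Odd (m - 1)) :
    At (K := K) m + G (m - 1) m (-1) = C ((G (K := K) (m - 1) m (-1)).eval 1) := by
  rw [← sub_eq_zero]
  apply zero_of p
  · have d2 := deriv_G (K := K) (m - 1) m (-1) hm0 (fun j hj => cast_ne p _ (by omega) (by omega))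
    have d1 : derivative (At (K := K) m) = (1 - X) ^ (m - 1) * (-1 + (1 - X)) ^ (m - 1) := by
      unfold At
      rw [derivative_sum, add_pow, mul_sum]
      apply sum_congr rfl
      intro j hj
      rw [mem_range] at hj
      rw [derivative_C_mul, derivative_pow]
      have hc : ((m + j : ℕ) : K) ≠ 0 := cast_ne p _ (by omega) (by omega)
      have hc2 : ((2 * m - 1 - j : ℕ) : K) = - ((m + j : ℕ) : K) := by
        rw [eq_neg_iff_add_eq_zero, ← Nat.cast_add, show 2 * m - 1 - j + (m + j) = p by omega]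
        exact CharP.cast_eq_zero K p
      rw [hc2, derivative_sub, derivative_one, derivative_X]
      have e : (((m - 1).choose j : K) * (-1) ^ j * ((m + j : ℕ) : K)⁻¹) * ((m + j : ℕ) : K)
          = ((m - 1).choose j : K) * (-1) ^ j := by
        field_simp
      rw [show 2 * m - 1 - j - 1 = (m - 1) + (m - 1 - j) by omega, pow_add]
      calc _ = C ((((m - 1).choose j : K) * (-1) ^ j * ((m + j : ℕ) : K)⁻¹) * ((m + j : ℕ) : K))
            * ((1 - X) ^ (m - 1) * (1 - X) ^ (m - 1 - j)) := by
              simp only [C_mul, C_neg]; ring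
        _ = _ := by
              rw [e]
              simp only [C_mul, C_pow, map_neg, map_one, map_natCast]
              ring
    rw [derivative_sub, derivative_add, d1, d2, derivative_C]
    have e1 : (-1 + (1 - X) : K[X]) ^ (m - 1) = - X ^ (m - 1) := by
      rw [show (-1 + (1 - X) : K[X]) = -X by ring, hmodd.neg_pow]
    rw [e1]
    simp only [map_neg, map_one]
    rw [show (1 + -1 * X : K[X]) = 1 - X by ring]
    ring
  · refine lt_of_le_of_lt (natDegree_sub_le _ _) (max_lt ?_ ?_)
    · refine lt_of_le_of_lt (natDegree_add_le _ _) (max_lt ?_ ?_)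
      · refine lt_of_le_of_lt (b := 2 * m - 1) ?_ (by omega)
        unfold At
        apply natDegree_sum_le_of_forall_le
        intro j hj
        refine (natDegree_C_mul_le _ _).trans ?_
        refine (natDegree_pow_le).trans ?_
        have h4 : (1 - X : K[X]).natDegree ≤ 1 := by
          refine (natDegree_sub_le _ _).trans (max_le ?_ natDegree_X_le)
          simp
        calc _ ≤ (2 * m - 1 - j) * 1 := Nat.mul_le_mul_left _ h4
          _ ≤ _ := by omega
      · have := natDegree_G (K := K) (m - 1) m (-1)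
        omega
    · rw [natDegree_C]
      have := hp.out.pos
      omega
  · rw [eval_sub, eval_add, eval_zero_G (m - 1) m _ hm0, eval_C, add_zero, sub_eq_zero]
    unfold At G
    rw [eval_finsetSum, eval_finsetSum]
    apply sum_congr rfl
    intro j _
    simp
  · rw [eval_sub, eval_add, eval_C]
    have : (At (K := K) m).eval 1 = 0 := by
      unfold At
      rw [eval_finsetSum]
      apply sum_eq_zero
      intro j hj
      rw [mem_range] at hj
      rw [eval_mul, eval_pow, eval_sub, eval_one, eval_X, sub_self, zero_pow (by omega), mul_zero]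
    rw [this]; ring

omit hp [CharP K p] in
lemma pow_p_eq (u : K) (hu : u * (1 - u) = 1) (h6 : p % 6 = 5) : u ^ p = 1 - u := by
  have h2 : u ^ 2 = u - 1 := by linear_combination -hu
  have h3 : u ^ 3 = -1 := by
    calc u ^ 3 = u * u ^ 2 := by ring
      _ = -1 := by rw [h2]; linear_combination -hu
  obtain ⟨k, hk⟩ : ∃ k, p = 6 * k + 5 := ⟨p / 6, by omega⟩
  rw [hk, pow_add, pow_mul]
  have h6' : u ^ 6 = 1 := by
    calc u ^ 6 = (u ^ 3) ^ 2 := by ring
      _ = 1 := by rw [h3]; ring
  rw [h6', one_pow, one_mul]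
  calc u ^ 5 = u ^ 3 * u ^ 2 := by ring
    _ = 1 - u := by rw [h3, h2]; ring

/-- `Φ(1) = A(1)`. -/
lemma phi_eq (N m : ℕ) (hN : 2 * N + 1 = p) (hm : 3 * m = p + 1) (hm0 : 0 < m)
    (u : K) (hu : u * (1 - u) = 1) (h3 : (3 : K) ≠ 0) :
    (G (K := K) N m (-4)).eval 1 = (G (K := K) (m - 1) m (-1)).eval 1 := by
  have h6 : p % 6 = 5 := by omega
  have hmodd : Odd (m - 1) := ⟨(m - 2) / 2, by omega⟩
  have c1 := congrArg (eval u) (claim_one (K := K) p N m hN hm hm0)
  have c2 := congrArg (eval u) (claim_two (K := K) p m hm hm0 hmodd)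
  have hup : u ^ p = 1 - u := pow_p_eq p u hu h6
  have hup' : (1 - u) ^ p = u := by
    rw [pow_p_eq p (1 - u) (by linear_combination hu) h6]; ring
  have hAt : (At (K := K) m).eval u = u * (G (K := K) (m - 1) m (-1)).eval u := by
    unfold At G
    rw [eval_finsetSum, eval_finsetSum, mul_sum]
    apply sum_congr rfl
    intro j hj
    rw [mem_range] at hj
    simp only [eval_mul, eval_C, eval_pow, eval_sub, eval_one, eval_X]
    have e : (1 - u) ^ (2 * m - 1 - j) = u * u ^ (m + j) := by
      calc (1 - u) ^ (2 * m - 1 - j) = (1 - u) ^ (2 * m - 1 - j) * (u * (1 - u)) ^ (m + j) := by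
            rw [hu, one_pow, mul_one]
        _ = (1 - u) ^ ((2 * m - 1 - j) + (m + j)) * u ^ (m + j) := by
            rw [mul_pow, pow_add]; ring
        _ = u * u ^ (m + j) := by
            rw [show (2 * m - 1 - j) + (m + j) = p by omega, hup']
    rw [e]; ring
  simp only [eval_comp, eval_mul, eval_X, eval_sub, eval_one, eval_add, eval_pow, eval_C,
    eval_ofNat, hu, hup] at c1
  rw [eval_add, hAt, eval_C] at c2
  set x := (G (K := K) (m - 1) m (-1)).eval u
  set y := (G (K := K) (m - 1) m (-1)).eval 1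
  rw [c1]
  have hne : (1 + u) ≠ 0 := by
    intro h
    have hu1 : u = -1 := by linear_combination h
    rw [hu1] at hu
    apply h3
    linear_combination -hu
  apply mul_left_cancel₀ hne
  linear_combination (2 * u - 1) * c2 + y * hu

end Poly

section Beta

variable {K : Type*} [Field K]

lemma beta_sum (n : ℕ) : ∀ x : K, (∀ j ≤ n, x + (j : K) ≠ 0) →
    ∑ j ∈ range (n + 1), (n.choose j : K) * (-1) ^ j * (x + j)⁻¹
      = (n.factorial : K) * (∏ j ∈ range (n + 1), (x + j))⁻¹ := by
  induction n with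
  | zero => intro x _; simp
  | succ n ih =>
    intro x hx
    have h1 := ih x (fun j hj => hx j (by omega))
    have h2 := ih (x + 1) (fun j hj => by
      have := hx (j + 1) (by omega)
      push_cast at this
      rw [add_assoc, add_comm (1 : K)]; exact this)
    have hsplit : ∑ j ∈ range (n + 1 + 1), ((n + 1).choose j : K) * (-1) ^ j * (x + j)⁻¹
        = ∑ j ∈ range (n + 1), (n.choose j : K) * (-1) ^ j * (x + j)⁻¹
          - ∑ j ∈ range (n + 1), (n.choose j : K) * (-1) ^ j * (x + 1 + j)⁻¹ := by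
      rw [sum_range_succ' _ (n + 1)]
      have e1 : ∀ j ∈ range (n + 1), ((n + 1).choose (j + 1) : K) * (-1) ^ (j + 1)
            * (x + ((j + 1 : ℕ) : K))⁻¹
          = (n.choose (j + 1) : K) * (-1) ^ (j + 1) * (x + ((j + 1 : ℕ) : K))⁻¹
            - (n.choose j : K) * (-1) ^ j * (x + 1 + j)⁻¹ := by
        intro j _
        rw [Nat.choose_succ_succ]
        push_cast
        rw [show x + 1 + (j : K) = x + (j + 1) by ring]
        ring
      rw [sum_congr rfl e1, sum_sub_distrib]
      have e2 : ∑ j ∈ range (n + 1), (n.choose (j + 1) : K) * (-1) ^ (j + 1)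
            * (x + ((j + 1 : ℕ) : K))⁻¹ + (n.choose 0 : K) * (-1) ^ 0 * (x + ((0 : ℕ) : K))⁻¹
          = ∑ j ∈ range (n + 1), (n.choose j : K) * (-1) ^ j * (x + j)⁻¹ := by
        rw [← sum_range_succ' (fun j => (n.choose j : K) * (-1) ^ j * (x + (j : K))⁻¹) (n + 1),
          sum_range_succ, Nat.choose_succ_self]
        simp
      rw [← e2]
      simp only [Nat.choose_zero_right]
      ring
    rw [hsplit, h1, h2]
    have hP : ∏ j ∈ range (n + 1), (x + (j : K)) ≠ 0 := prod_ne_zero_iff.2 (fun j hj => by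
      rw [mem_range] at hj; exact hx j (by omega))
    have hQ : ∏ j ∈ range (n + 1), (x + 1 + (j : K)) ≠ 0 := prod_ne_zero_iff.2 (fun j hj => by
      rw [mem_range] at hj
      have := hx (j + 1) (by omega)
      push_cast at this
      rw [add_assoc, add_comm (1 : K)]; exact this)
    have hR : ∏ j ∈ range (n + 1 + 1), (x + (j : K))
        = (∏ j ∈ range (n + 1), (x + (j : K))) * (x + ((n + 1 : ℕ) : K)) := prod_range_succ _ _
    have hR' : ∏ j ∈ range (n + 1 + 1), (x + (j : K))
        = (∏ j ∈ range (n + 1), (x + 1 + (j : K))) * x := by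
      rw [prod_range_succ']
      congr 1
      · apply prod_congr rfl
        intro j _; push_cast; ring
      · simp
    have hx0 : x ≠ 0 := by simpa using hx 0 (by omega)
    have hxn : x + ((n + 1 : ℕ) : K) ≠ 0 := hx (n + 1) le_rfl
    have i1 : (∏ j ∈ range (n + 1), (x + (j : K)))⁻¹
        = (x + ((n + 1 : ℕ) : K)) * (∏ j ∈ range (n + 1 + 1), (x + (j : K)))⁻¹ := by
      rw [hR, mul_inv]; field_simp
    have i2 : (∏ j ∈ range (n + 1), (x + 1 + (j : K)))⁻¹
        = x * (∏ j ∈ range (n + 1 + 1), (x + (j : K)))⁻¹ := by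
      rw [hR', mul_inv]; field_simp
    rw [i1, i2, Nat.factorial_succ]
    push_cast
    ring

end Beta

section Final

variable {K : Type*} [Field K] (p : ℕ) [hp : Fact p.Prime] [CharP K p]

omit hp in
/-- `A(1) m C(2m,m) = 2`. -/
lemma A_one (m : ℕ) (hm : 3 * m = p + 1) (hm0 : 0 < m) :
    (G (K := K) (m - 1) m (-1)).eval 1 * (m * ((2 * m).choose m : K)) = 2 := by
  have hx : ∀ j ≤ m - 1, (m : K) + (j : K) ≠ 0 := by
    intro j hj
    have := cast_ne (K := K) p (m + j) (by omega) (by omega)
    rwa [Nat.cast_add] at this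
  have h1 : (G (K := K) (m - 1) m (-1)).eval 1
      = ((m - 1).factorial : K) * (∏ j ∈ range (m - 1 + 1), ((m : K) + j))⁻¹ := by
    rw [← beta_sum (m - 1) (m : K) hx]
    unfold G
    rw [Polynomial.eval_finsetSum]
    apply sum_congr rfl
    intro j _
    simp
  have h2 : (∏ j ∈ range (m - 1 + 1), ((m : K) + j)) ≠ 0 := prod_ne_zero_iff.2 (fun j hj => by
    rw [mem_range] at hj; exact hx j (by omega))
  have h3 : (m - 1).factorial * (∏ j ∈ range (m - 1 + 1), (m + j)) = (2 * m - 1).factorial := by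
    rw [show m - 1 + 1 = m by omega, ← Nat.ascFactorial_eq_prod_range]
    have := Nat.factorial_mul_ascFactorial (m - 1) m
    rw [show m - 1 + 1 = m by omega] at this
    rw [this]; congr 1; omega
  have h4 : m * (2 * m).choose m * (m - 1).factorial * (m - 1).factorial
      = 2 * (2 * m - 1).factorial := by
    obtain ⟨k, rfl⟩ : ∃ k, m = k + 1 := ⟨m - 1, by omega⟩
    have e := Nat.choose_mul_factorial_mul_factorial (show k + 1 ≤ 2 * (k + 1) by omega)
    have e' : (2 * (k + 1)).factorial = (2 * (k + 1)) * (2 * (k + 1) - 1).factorial :=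
      (Nat.mul_factorial_pred (by omega)).symm
    rw [show 2 * (k + 1) - (k + 1) = k + 1 by omega, e', Nat.factorial_succ k] at e
    rw [Nat.add_sub_cancel]
    apply Nat.eq_of_mul_eq_mul_left (show 0 < k + 1 by omega)
    calc (k + 1) * ((k + 1) * (2 * (k + 1)).choose (k + 1) * k.factorial * k.factorial)
        = (2 * (k + 1)).choose (k + 1) * ((k + 1) * k.factorial) * ((k + 1) * k.factorial) := by ring
      _ = _ := by rw [e]; ring
  have h5 : m * (2 * m).choose m * (m - 1).factorial
      = 2 * ∏ j ∈ range (m - 1 + 1), (m + j) := by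
    apply Nat.eq_of_mul_eq_mul_left (Nat.factorial_pos (m - 1))
    calc _ = m * (2 * m).choose m * (m - 1).factorial * (m - 1).factorial := by ring
      _ = 2 * (2 * m - 1).factorial := h4
      _ = _ := by rw [← h3]; ring
  have h6 : (m : K) * ((2 * m).choose m : K) * ((m - 1).factorial : K)
      = 2 * ∏ j ∈ range (m - 1 + 1), ((m : K) + j) := by
    have := congrArg (Nat.cast : ℕ → K) h5
    push_cast at this
    exact this
  rw [h1]
  calc _ = ((m : K) * ((2 * m).choose m : K) * ((m - 1).factorial : K))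
        * (∏ j ∈ range (m - 1 + 1), ((m : K) + j))⁻¹ := by ring
    _ = 2 := by rw [h6, mul_assoc, mul_inv_cancel₀ h2, mul_one]

lemma cast_choose_pred (k : ℕ) (hk : k < p) : ((p - 1).choose k : K) = (-1) ^ k := by
  induction k with
  | zero => simp
  | succ k ih =>
    have h1 := ih (by omega)
    have h2 : ((p.choose (k + 1) : ℕ) : K) = 0 := by
      rw [CharP.cast_eq_zero_iff K p]
      exact hp.out.dvd_choose_self (by omega) hk
    obtain ⟨q, hq⟩ : ∃ q, p = q + 1 := ⟨p - 1, by omega⟩
    rw [hq, Nat.choose_succ_succ] at h2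
    rw [hq, Nat.add_sub_cancel] at h1 ⊢
    push_cast at h2
    rw [h1] at h2
    rw [pow_succ]
    linear_combination h2

lemma cast_choose_add (j : ℕ) (hj : j < p) : ((p + j).choose j : K) = 1 := by
  have h := Choose.choose_modEq_choose_mod_mul_choose_div_nat (p := p) (n := p + j) (k := j)
  rw [Nat.add_mod_left, Nat.mod_eq_of_lt hj, Nat.choose_self, Nat.div_eq_of_lt hj,
    Nat.choose_zero_right, mul_one] at h
  have := (CharP.natCast_eq_natCast' (R := K) p h)
  simpa using this

omit hp in
lemma cast_centralBinom (N : ℕ) (hN : 2 * N + 1 = p) (j : ℕ) (hj : j ≤ N) :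
    ((2 * j).choose j : K) = (N.choose j : K) * (-4) ^ j := by
  induction j with
  | zero => simp
  | succ j ih =>
    have h1 := ih (by omega)
    have h2 := Nat.succ_mul_centralBinom_succ j
    rw [Nat.centralBinom_eq_two_mul_choose, Nat.centralBinom_eq_two_mul_choose] at h2
    have h3 := Nat.choose_succ_right_eq N j
    have h2' := congrArg (Nat.cast : ℕ → K) h2
    have h3' := congrArg (Nat.cast : ℕ → K) h3
    push_cast [Nat.cast_sub (show j ≤ N by omega)] at h2' h3'
    have hne : ((j + 1 : ℕ) : K) ≠ 0 := cast_ne p _ (by omega) (by omega)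
    have hp0 : (2 * N + 1 : K) = 0 := by
      have : ((2 * N + 1 : ℕ) : K) = 0 := by rw [hN]; exact CharP.cast_eq_zero K p
      exact_mod_cast this
    apply mul_left_cancel₀ hne
    push_cast
    rw [h1] at h2'
    calc ((j : K) + 1) * ((2 * (j + 1)).choose (j + 1) : K)
        = 2 * (2 * j + 1) * ((N.choose j : K) * (-4) ^ j) := h2'
      _ = ((N.choose j : K) * (N - j)) * (-4) ^ (j + 1) := by
          rw [pow_succ]
          linear_combination (-2 * (N.choose j : K) * (-4) ^ j) * (-hp0)
      _ = _ := by rw [← h3']; ring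

/-- existence of the quotient `T_j` -/
lemma exists_T (j : ℕ) (h3 : p % 3 = 2) (hj : 2 * j < p) :
    ∃ T : ℕ, (3 * j).choose j * (2 * j).choose j * (p + j).choose (3 * j + 1) = p * T ∧
      (T : K) * ((3 * j + 1 : ℕ) : K) = ((2 * j).choose j : K) := by
  have hk := key_nat p j hp.out.pos
  have hk2 : (3 * j + 1) * ((3 * j).choose j * (2 * j).choose j * (p + j).choose (3 * j + 1))
      = p * ((2 * j).choose j * ((p + j).choose j * (p - 1).choose (2 * j))) := by
    calc _ = (2 * j).choose j * ((p + j).choose (3 * j + 1) * ((3 * j + 1) * (3 * j).choose j)) := by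
          ring
      _ = _ := by rw [hk]; ring
  have hnd : ¬ p ∣ 3 * j + 1 := by
    rintro ⟨c, hc⟩
    have : c < 2 := by
      by_contra h
      push Not at h
      have : p * 2 ≤ p * c := Nat.mul_le_mul_left _ h
      omega
    interval_cases c <;> omega
  have hd : p ∣ (3 * j).choose j * (2 * j).choose j * (p + j).choose (3 * j + 1) := by
    have : p ∣ (3 * j + 1) * ((3 * j).choose j * (2 * j).choose j * (p + j).choose (3 * j + 1)) :=
      ⟨_, hk2⟩
    exact (hp.out.dvd_mul.1 this).resolve_left hnd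
  obtain ⟨T, hT⟩ := hd
  refine ⟨T, hT, ?_⟩
  rw [hT] at hk2
  have h4 : (3 * j + 1) * T = (2 * j).choose j * ((p + j).choose j * (p - 1).choose (2 * j)) := by
    apply Nat.eq_of_mul_eq_mul_left hp.out.pos
    rw [← hk2]; ring
  have h5 := congrArg (Nat.cast : ℕ → K) h4
  rw [Nat.cast_mul, Nat.cast_mul, Nat.cast_mul, cast_choose_add p j (by omega),
    cast_choose_pred p (2 * j) hj, pow_mul] at h5
  rw [mul_comm, h5]
  norm_num

/-- The sum of the `T_j` modulo `p`. -/
lemma sum_T (N m : ℕ) (hN : 2 * N + 1 = p) (hm : 3 * m = p + 1) (hm0 : 0 < m)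
    (u : K) (hu : u * (1 - u) = 1) (h3 : (3 : K) ≠ 0) (T : ℕ → ℕ)
    (hT : ∀ j ≤ N, (T j : K) * ((3 * j + 1 : ℕ) : K) = ((2 * j).choose j : K)) :
    ((2 * m).choose m : K) * ∑ j ∈ range (N + 1), (T j : K) = 2 := by
  have hm3 : (3 : K) * m = 1 := by
    have : ((3 * m : ℕ) : K) = ((p + 1 : ℕ) : K) := by rw [hm]
    push_cast at this
    rw [this, CharP.cast_eq_zero K p, zero_add]
  have h1 : ∀ j ∈ range (N + 1), (T j : K)
      = m * ((N.choose j : K) * (-4) ^ j * ((m + j : ℕ) : K)⁻¹) := by
    intro j hj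
    rw [mem_range] at hj
    have h := hT j (by omega)
    rw [cast_centralBinom p N hN j (by omega)] at h
    have hne : ((m + j : ℕ) : K) ≠ 0 := cast_ne p _ (by omega) (by omega)
    have e : ((3 * j + 1 : ℕ) : K) = 3 * ((m + j : ℕ) : K) := by
      push_cast
      linear_combination -hm3
    rw [e] at h
    have h' : (T j : K) * ((m + j : ℕ) : K) = m * ((N.choose j : K) * (-4) ^ j) := by
      rw [← h]
      linear_combination (-(T j : K) * ((m + j : ℕ) : K)) * hm3
    rw [← mul_assoc, ← h', mul_assoc, mul_inv_cancel₀ hne, mul_one]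
  rw [sum_congr rfl h1, ← mul_sum]
  have h2 : ∑ j ∈ range (N + 1), ((N.choose j : K) * (-4) ^ j * ((m + j : ℕ) : K)⁻¹)
      = (G (K := K) N m (-4)).eval 1 := by
    unfold G
    rw [Polynomial.eval_finsetSum]
    apply sum_congr rfl
    intro j _
    simp
  rw [h2, phi_eq p N m hN hm hm0 u hu h3]
  have := A_one (K := K) p m hm hm0
  linear_combination this

lemma int_form_aux (m : ℕ) (h3 : p % 3 = 2) (hodd : p % 2 = 1) (hm : 3 * m = p + 1)
    (u : K) (hu : u * (1 - u) = 1) :
    ((p : ℤ) ^ 2) ∣ ((2 * m).choose m : ℤ) * (∑ k ∈ range p, (a k : ℤ)) - 2 * p := by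
  obtain ⟨N, hN⟩ : ∃ N, 2 * N + 1 = p := ⟨p / 2, by omega⟩
  have hm0 : 0 < m := by omega
  have h3K : (3 : K) ≠ 0 := by
    have h2 := hp.out.two_le
    have := cast_ne (K := K) p 3 (by norm_num) (by
      by_contra h
      have hle : p ≤ 3 := by omega
      interval_cases p <;> omega)
    exact_mod_cast this
  -- choose T
  have hex : ∀ j : ℕ, ∃ T : ℕ, j ≤ N →
      ((3 * j).choose j * (2 * j).choose j * (p + j).choose (3 * j + 1) = p * T ∧
      (T : K) * ((3 * j + 1 : ℕ) : K) = ((2 * j).choose j : K)) := by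
    intro j
    by_cases hj : j ≤ N
    · obtain ⟨T, h1, h2⟩ := exists_T (K := K) p j h3 (by omega)
      exact ⟨T, fun _ => ⟨h1, h2⟩⟩
    · exact ⟨0, fun h => absurd h hj⟩
  choose T hT using hex
  have hsum : ∑ k ∈ range p, a k = p * ∑ j ∈ range (N + 1), T j := by
    rw [sum_a, mul_sum]
    have hsub : ∑ j ∈ range (N + 1), (3 * j).choose j * (2 * j).choose j
          * (p + j).choose (3 * j + 1)
        = ∑ j ∈ range p, (3 * j).choose j * (2 * j).choose j * (p + j).choose (3 * j + 1) := by
      apply sum_subset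
      · intro j hj; rw [mem_range] at *; omega
      · intro j _ hj
        rw [mem_range, not_lt] at hj
        rw [Nat.choose_eq_zero_of_lt (show p + j < 3 * j + 1 by omega), mul_zero]
    rw [← hsub]
    apply sum_congr rfl
    intro j hj
    rw [mem_range] at hj
    exact (hT j (by omega)).1
  have hK := sum_T (K := K) p N m hN hm hm0 u hu h3K T (fun j hj => (hT j hj).2)
  have hdvd : (p : ℤ) ∣ ((2 * m).choose m : ℤ) * (∑ j ∈ range (N + 1), (T j : ℤ)) - 2 := by
    rw [← CharP.intCast_eq_zero_iff K p]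
    push_cast
    rw [hK, sub_self]
  obtain ⟨c, hc⟩ := hdvd
  refine ⟨c, ?_⟩
  have hsum' : (∑ k ∈ range p, (a k : ℤ)) = p * ∑ j ∈ range (N + 1), (T j : ℤ) := by
    exact_mod_cast hsum
  rw [hsum']
  linear_combination (p : ℤ) * hc

end Final

lemma exists_u {K : Type*} [Field K] [IsAlgClosed K] (h2 : (2 : K) ≠ 0) :
    ∃ u : K, u * (1 - u) = 1 := by
  obtain ⟨s, hs⟩ := IsAlgClosed.exists_pow_nat_eq (-3 : K) (n := 2) (by norm_num)
  refine ⟨(1 + s) / 2, ?_⟩
  field_simp
  linear_combination -hs

/-- Integer form: `p ^ 2` divides `C(2m,m) ∑_{k<p} a(k) - 2p`, for odd `p`. -/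
lemma int_form (p m : ℕ) (hp : p.Prime) (h3 : p % 3 = 2) (hodd : p % 2 = 1)
    (hm : 3 * m = p + 1) :
    ((p : ℤ) ^ 2) ∣ ((2 * m).choose m : ℤ) * (∑ k ∈ range p, (a k : ℤ)) - 2 * p := by
  have : Fact p.Prime := ⟨hp⟩
  have : CharP (AlgebraicClosure (ZMod p)) p :=
    charP_of_injective_algebraMap (algebraMap (ZMod p) (AlgebraicClosure (ZMod p))).injective p
  have h2K : (2 : AlgebraicClosure (ZMod p)) ≠ 0 := by
    have := cast_ne (K := AlgebraicClosure (ZMod p)) p 2 (by norm_num)
      (by have := hp.two_le; omega)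
    exact_mod_cast this
  obtain ⟨u, hu⟩ := exists_u h2K
  exact int_form_aux p m h3 hodd hm u hu

/-- **Sun's conjecture.** For every prime `p ≡ 2 (mod 3)`, with `m = (p + 1) / 3`, the rational
number `a(0) + a(1) + ⋯ + a(p-1) - 2p / C(2m,m)`, in lowest terms, has numerator divisible by
`p ^ 2`. -/
theorem result (p : ℕ) (hp : p.Prime) (h3 : p % 3 = 2) :
    ((p : ℤ) ^ 2) ∣ ((∑ k ∈ range p, (a k : ℚ))
      - 2 * (p : ℚ) / (((2 * ((p + 1) / 3)).choose ((p + 1) / 3) : ℕ) : ℚ)).num := by
  obtain ⟨m, hm⟩ : ∃ m, 3 * m = p + 1 := ⟨(p + 1) / 3, by omega⟩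
  have hm' : (p + 1) / 3 = m := by omega
  rw [hm']
  rcases hp.eq_two_or_odd with h2 | hodd
  · subst h2
    have hm1 : m = 1 := by omega
    subst hm1
    have : (∑ k ∈ range 2, (a k : ℚ)) = 2 := by
      simp [sum_range_succ, a]
      norm_num
    rw [this]
    norm_num
  · have hI := int_form p m hp h3 hodd hm
    set B := (2 * m).choose m with hB
    set S : ℤ := ∑ k ∈ range p, (a k : ℤ) with hS
    have hB0 : (B : ℚ) ≠ 0 := by
      have : 0 < B := Nat.choose_pos (by omega)
      exact_mod_cast this.ne'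
    have hcop : IsCoprime ((p : ℤ) ^ 2) (B : ℤ) := by
      apply IsCoprime.pow_left
      rw [Nat.isCoprime_iff_coprime, hp.coprime_iff_not_dvd, hB]
      intro hd
      have h5 : 2 * m < p := by
        have : p ≠ 3 := by rintro rfl; omega
        have : p ≠ 1 := hp.one_lt.ne'
        omega
      have h6 : p ∣ (2 * m).factorial := by
        rw [← Nat.choose_mul_factorial_mul_factorial (show m ≤ 2 * m by omega)]
        exact Dvd.dvd.mul_right (Dvd.dvd.mul_right hd _) _
      have := (hp.dvd_factorial).1 h6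
      omega
    have hSq : (∑ k ∈ range p, (a k : ℚ)) = (S : ℚ) := by
      rw [hS]; push_cast; rfl
    rw [hSq]
    set q : ℚ := (S : ℚ) - 2 * (p : ℚ) / (B : ℚ) with hq
    have h7 : q * B = ((B * S - 2 * p : ℤ) : ℚ) := by
      rw [hq]; push_cast; field_simp
    have h8 : q.num * B = (B * S - 2 * p) * q.den := by
      have h9 : (q.num : ℚ) = q * q.den := (Rat.mul_den_eq_num q).symm
      have : ((q.num * B : ℤ) : ℚ) = (((B * S - 2 * p) * q.den : ℤ) : ℚ) := by
        push_cast
        rw [h9]
        have h7' : q * B = B * S - 2 * p := by rw [h7]; push_cast; ring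
        linear_combination (q.den : ℚ) * h7'
      exact_mod_cast this
    have h9 : ((p : ℤ) ^ 2) ∣ q.num * B := by
      rw [h8]
      exact Dvd.dvd.mul_right hI _
    exact hcop.dvd_of_dvd_mul_right h9

end Pool.Agent.Results.MP_ec79a8_nt.Main
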